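import Pool.Agent.H568R3.K5
import Pool.Agent.Y996.RK.Walecki
import Pool.Agent.Y996.RK.Top
import Pool.Agent.Y996.RK.Cofin
import Pool.Agent.Y996.RK.Nec

/-!
# Redundantly rigid placements in `ℓ_q^d`: all dimensions, all graphs, one placement

* For every `d ≥ 2` the complete graph with `2d + 1` vertices is the edge-disjoint union of `d`
  Hamilton cycles and has no redundantly rigid placement in `ℓ_∞^d`.
* For every finite vertex set there is one placement in `ℝ^d` such that for all real `q > 1` outside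
  a finite set and for all graphs on this vertex set at once the framework is (redundantly) rigid in
  `ℓ_q^d` if and only if the graph contains `d` edge-disjoint connected spanning subgraphs (also
  after the deletion of any edge).
-/

set_option autoImplicit false

namespace Pool.Agent.Results.MP_7ac2f5_co.AllDimensions

open scoped ENNReal
open Pool.Agent.H568R3
open Pool.Agent.Y996.RK

/-- The graph contains `d` edge-disjoint connected spanning subgraphs, and so does every graph
which arises from it by the deletion of one edge. -/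
def RedPacks {V : Type*} (d : ℕ) (G : SimpleGraph V) : Prop :=
  Packs d G ∧ ∀ e ∈ G.edgeSet, Packs d (G.deleteEdges {e})

theorem redPacks_of_ham {V : Type*} [DecidableEq V] {d : ℕ} {G : SimpleGraph V}
    (hG : IsUnionOfHamiltonCycles d G) : RedPacks d G := by
  obtain ⟨a, H, hH, hu⟩ := hG
  have hdis : ∀ i i', i ≠ i' → Disjoint (wg (H i)) (wg (H i')) := by
    intro i i' hii
    rw [← SimpleGraph.disjoint_edgeSet, Set.disjoint_left]
    intro e he he'
    rw [mem_wg] at he he'
    exact hii ((hu e ((H i).edges_subset_edgeSet he)).unique he he')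
  refine ⟨⟨fun i => wg (H i), fun i => wg_le (H i), fun i => wg_connected (hH i), hdis⟩, ?_⟩
  intro e _
  exact ⟨fun i => (wg (H i)).deleteEdges {e}, fun i => SimpleGraph.deleteEdges_mono (wg_le (H i)),
    fun i => wg_delete_connected (hH i) e,
    fun i i' hii => (hdis i i' hii).mono (SimpleGraph.deleteEdges_le _)
      (SimpleGraph.deleteEdges_le _)⟩

theorem red_iff {V : Type*} {d : ℕ} {q : ℝ} {p : V → Fin d → ℝ}
    (h : ∀ G : SimpleGraph V, Rigid (ENNReal.ofReal q) G p ↔ Packs d G) (G : SimpleGraph V) :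
    RedundantlyRigid (ENNReal.ofReal q) G p ↔ RedPacks d G := by
  unfold RedundantlyRigid RedPacks
  rw [h G]
  exact and_congr_right fun _ => forall₂_congr fun e _ => h _

/-- One placement for all graphs on a vertex set and all exponents outside a finite set. -/
theorem cofinite {V : Type*} [Finite V] [Nonempty V] {d : ℕ} (hd : 1 ≤ d) :
    ∃ (p : V → Fin d → ℝ) (B : Finset ℝ), ∀ q : ℝ, 1 < q → q ∉ B → ∀ G : SimpleGraph V,
      Rigid (ENNReal.ofReal q) G p ↔ Packs d G := by
  choose K hK1 hK2 hK3 using fun G : {G : SimpleGraph V // Packs d G} => G.2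
  obtain ⟨p, B, h⟩ := exists_rigid_cofinite (V := V) hd (fun G : {G : SimpleGraph V // Packs d G} =>
    G.1) K hK1 hK2 hK3
  exact ⟨p, B, fun q hq hqB G => ⟨packs_of_Rigid hd hq, fun hG => h q hq hqB ⟨G, hG⟩⟩⟩

/-- One placement for all graphs on a vertex set and one non-integral exponent. -/
theorem nonint {V : Type*} [Finite V] [Nonempty V] {d : ℕ} (hd : 1 ≤ d) {q : ℝ} (hq : 1 < q)
    (hqn : ∀ m : ℤ, (m : ℝ) ≠ q) :
    ∃ p : V → Fin d → ℝ, ∀ G : SimpleGraph V,
      Rigid (ENNReal.ofReal q) G p ↔ Packs d G := by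
  choose K hK1 hK2 hK3 using fun G : {G : SimpleGraph V // Packs d G} => G.2
  obtain ⟨p, h⟩ := exists_rigid (V := V) hd hq hqn (fun G : {G : SimpleGraph V // Packs d G} =>
    G.1) K hK1 hK2 hK3
  exact ⟨p, fun G => ⟨packs_of_Rigid hd hq, fun hG => h ⟨G, hG⟩⟩⟩

/-- (1) For every `d ≥ 2` the complete graph with `2d + 1` vertices is the edge-disjoint union of
`d` Hamilton cycles and has no redundantly rigid placement in `ℓ_∞^d`; and `K_5` has none in
`ℓ_1^2`. (2) For every finite nonempty vertex set `V` and every `d ≥ 1` there are one placement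
`p : V → ℝ^d` and a finite set `B` of real numbers such that for every real `q > 1` which is not in
`B` and for every graph `G` on `V`: the framework `(G, p)` is rigid in `ℓ_q^d` if and only if `G`
contains `d` edge-disjoint connected spanning subgraphs, and redundantly rigid if and only if this
is true for `G` and for all graphs `G - e`. (3) The same is true, with a placement which depends on
`q`, for every non-integral `q > 1`. (4) Every edge-disjoint union of `d` Hamilton cycles has one
placement which is redundantly rigid in `ℓ_q^d` for all real `q > 1` outside a finite set, and it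
has a redundantly rigid placement in `ℓ_q^d` for every non-integral `q > 1`. -/
theorem result :
    ((∀ d : ℕ, 2 ≤ d → ∀ (V : Type) [DecidableEq V] [Fintype V], Fintype.card V = 2 * d + 1 →
      IsUnionOfHamiltonCycles d (⊤ : SimpleGraph V) ∧
        ∀ p : V → Fin d → ℝ, ¬ RedundantlyRigid ∞ (⊤ : SimpleGraph V) p) ∧
      ∀ p : Fin 5 → Fin 2 → ℝ, ¬ RedundantlyRigid 1 (⊤ : SimpleGraph (Fin 5)) p) ∧
    (∀ (V : Type) [Finite V] [Nonempty V] (d : ℕ), 1 ≤ d →
      ∃ (p : V → Fin d → ℝ) (B : Finset ℝ), ∀ q : ℝ, 1 < q → q ∉ B → ∀ G : SimpleGraph V,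
        (Rigid (ENNReal.ofReal q) G p ↔ Packs d G) ∧
        (RedundantlyRigid (ENNReal.ofReal q) G p ↔ RedPacks d G)) ∧
    (∀ (V : Type) [Finite V] [Nonempty V] (d : ℕ), 1 ≤ d → ∀ q : ℝ, 1 < q →
      (∀ m : ℤ, (m : ℝ) ≠ q) → ∃ p : V → Fin d → ℝ, ∀ G : SimpleGraph V,
        (Rigid (ENNReal.ofReal q) G p ↔ Packs d G) ∧
        (RedundantlyRigid (ENNReal.ofReal q) G p ↔ RedPacks d G)) ∧
    (∀ (V : Type) [DecidableEq V] (d : ℕ), 1 ≤ d → ∀ G : SimpleGraph V,
      IsUnionOfHamiltonCycles d G →
        (∃ (p : V → Fin d → ℝ) (B : Finset ℝ), ∀ q : ℝ, 1 < q → q ∉ B →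
          RedundantlyRigid (ENNReal.ofReal q) G p) ∧
        ∀ q : ℝ, 1 < q → (∀ m : ℤ, (m : ℝ) ≠ q) →
          ∃ p : V → Fin d → ℝ, RedundantlyRigid (ENNReal.ofReal q) G p) := by
  refine ⟨⟨?_, k5_one⟩, ?_, ?_, ?_⟩
  · intro d hd V _ _ hV
    exact ⟨walecki (by omega) hV, complete_top hd hV⟩
  · intro V _ _ d hd
    obtain ⟨p, B, h⟩ := cofinite (V := V) hd
    exact ⟨p, B, fun q hq hqB G => ⟨h q hq hqB G, red_iff (h q hq hqB) G⟩⟩
  · intro V _ _ d hd q hq hqn
    obtain ⟨p, h⟩ := nonint (V := V) hd hq hqn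
    exact ⟨p, fun G => ⟨h G, red_iff h G⟩⟩
  · intro V _ d hd G hG
    have hred := redPacks_of_ham hG
    obtain ⟨a, H, hH, hu⟩ := hG
    have hfin : Finite V := (hH ⟨0, hd⟩).finite
    have hne : Nonempty V := ⟨a ⟨0, hd⟩⟩
    constructor
    · obtain ⟨p, B, h⟩ := cofinite (V := V) hd
      exact ⟨p, B, fun q hq hqB => (red_iff (h q hq hqB) G).2 hred⟩
    · intro q hq hqn
      obtain ⟨p, h⟩ := nonint (V := V) hd hq hqn
      exact ⟨p, (red_iff h G).2 hred⟩

end Pool.Agent.Results.MP_7ac2f5_co.AllDimensions
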